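import Pool.Agent.X119.Cong

/-!
# The second of the conjectured congruences fails, e.g. for `p = 7, 13, 19, 31, 43, 61, 67`
-/

set_option autoImplicit false

namespace Pool.Agent.Results.MP_7d0087_nt.SignFails

open Finset Pool.Agent.X119.Cong

/-- `S_p` -/
def S (p : ℕ) : ℚ := ∑ k ∈ range p, binom (-1 / 2) k * binom (-1 / 3) k / (-4) ^ k

/-- the first congruence for the prime `p` -/
def Statement1 (p : ℕ) : Prop :=
  p % 3 = 1 → ∀ A B : ℤ, (p : ℤ) = A ^ 2 + 3 * B ^ 2 → A % 3 = 1 → 5 ∣ A * B →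
    Cong p 2 (S p) (jacobiSym p 5 * (2 * A - p / (2 * A)))

/-- the right-hand side of the second congruence -/
def R2 (p : ℕ) (A B : ℤ) : ℚ := jacobiSym p 5 * (A + 3 * B - p / (A + 3 * B))

/-- the second congruence for the prime `p`; `A / B ≡ -1` or `-2 (mod 5)` -/
def Statement2 (p : ℕ) : Prop :=
  p % 3 = 1 → ∀ A B : ℤ, (p : ℤ) = A ^ 2 + 3 * B ^ 2 → A % 3 = 1 → ¬ 5 ∣ A * B → (5 ∣ A + B ∨ 5 ∣ A + 2 * B) →
    Cong p 2 (S p) (R2 p A B)

/-- the third congruence for the prime `p` -/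
def Statement3 (p : ℕ) : Prop := p % 3 = 2 → Cong p 1 (S p) 0

theorem fail7 : ¬ Cong 7 2 (S 7) (R2 7 (-2) 1) := by
  refine not_cong' (z := 6) ?_ (by decide +kernel)
  have h1 : jacobiSym ((7 : ℕ) : ℤ) 5 = -1 := by norm_num
  rw [R2, h1]
  norm_num

theorem fail13 : ¬ Cong 13 2 (S 13) (R2 13 1 2) := by
  refine not_cong' (z := -(7 - 13 / 7)) ?_ (by decide +kernel)
  have h1 : jacobiSym ((13 : ℕ) : ℤ) 5 = -1 := by norm_num
  rw [R2, h1]
  norm_num

theorem fail19 : ¬ Cong 19 2 (S 19) (R2 19 4 1) := by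
  refine not_cong' (z := 7 - 19 / 7) ?_ (by decide +kernel)
  have h1 : jacobiSym ((19 : ℕ) : ℤ) 5 = 1 := by norm_num
  rw [R2, h1]
  norm_num

theorem fail31 : ¬ Cong 31 2 (S 31) (R2 31 (-2) (-3)) := by
  refine not_cong' (z := -11 + 31 / 11) ?_ (by decide +kernel)
  have h1 : jacobiSym ((31 : ℕ) : ℤ) 5 = 1 := by norm_num
  rw [R2, h1]
  norm_num

theorem fail43 : ¬ Cong 43 2 (S 43) (R2 43 4 3) := by
  refine not_cong' (z := -(13 - 43 / 13)) ?_ (by decide +kernel)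
  have h1 : jacobiSym ((43 : ℕ) : ℤ) 5 = -1 := by norm_num
  rw [R2, h1]
  norm_num

/-- The second congruence fails for `p = 7, 13, 19, 31, 43`, so that it is false that the three congruences hold for every
prime `p > 5`. -/
theorem result :
    (¬ Cong 7 2 (S 7) (R2 7 (-2) 1) ∧ ¬ Cong 13 2 (S 13) (R2 13 1 2) ∧ ¬ Cong 19 2 (S 19) (R2 19 4 1) ∧
      ¬ Cong 31 2 (S 31) (R2 31 (-2) (-3)) ∧ ¬ Cong 43 2 (S 43) (R2 43 4 3)) ∧
    (¬ Statement2 7 ∧ ¬ Statement2 13 ∧ ¬ Statement2 19 ∧ ¬ Statement2 31 ∧ ¬ Statement2 43) ∧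
    ¬ ∀ p : ℕ, p.Prime → 5 < p → Statement1 p ∧ Statement2 p ∧ Statement3 p := by
  have h7 : ¬ Statement2 7 := fun h => fail7 (h (by norm_num) (-2) 1 (by norm_num) (by norm_num) (by norm_num)
    (Or.inr (by norm_num)))
  have h13 : ¬ Statement2 13 := fun h => fail13 (h (by norm_num) 1 2 (by norm_num) (by norm_num) (by norm_num)
    (Or.inr (by norm_num)))
  have h19 : ¬ Statement2 19 := fun h => fail19 (h (by norm_num) 4 1 (by norm_num) (by norm_num) (by norm_num)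
    (Or.inl (by norm_num)))
  have h31 : ¬ Statement2 31 := fun h => fail31 (h (by norm_num) (-2) (-3) (by norm_num) (by norm_num) (by norm_num)
    (Or.inl (by norm_num)))
  have h43 : ¬ Statement2 43 := fun h => fail43 (h (by norm_num) 4 3 (by norm_num) (by norm_num) (by norm_num)
    (Or.inr (by norm_num)))
  exact ⟨⟨fail7, fail13, fail19, fail31, fail43⟩, ⟨h7, h13, h19, h31, h43⟩,
    fun h => h7 (h 7 (by norm_num) (by norm_num)).2.1⟩

end Pool.Agent.Results.MP_7d0087_nt.SignFails
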